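import Pool.Agent.Work.MP_1595dd_lc.BarF2

open Pool.Agent.Work.MP_1595dd_lc.Bar

/-- Every deterministic online learner whose hypotheses are polynomials over the field with two
elements with fewer than `K ^ (d + 1)` monomials of degree more than `d` makes about `b ^ T / d`
mistakes on some parity of size `K (T + 1)`, on examples with at most `d (b + 1)` true
variables. -/
theorem Pool.Agent.Results.MP_1595dd_lc.F2Barrier.result :
    ∀ (d b T K s : ℕ), 1 ≤ d → 1 ≤ b → s < K ^ (d + 1) →
      ∀ L : List (Finset ℕ × Bool) → Finset ℕ → Bool,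
        (∀ h, IsF2Poly d s (d * (b + 1)) (L h)) →
        ∃ (S : Finset ℕ) (xs : List (Finset ℕ)), S.card = K * (T + 1) ∧
          (∀ x ∈ xs, x.card ≤ d * (b + 1)) ∧
          b ^ T ≤ d * (mistakes L (parityOn S) [] xs + 1) :=
  F2.barrier
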