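import Pool.Agent.Work.MP_1595dd_lc.BarMain

open Pool.Agent.Work.MP_1595dd_lc.Bar

/-- Every deterministic online learner whose hypotheses are polynomial threshold functions with
at most `2 ^ d` monomials of degree more than `d` makes `2 ^ Ω(r / d ^ 2)` mistakes on some
monotone decision list with `r` rules, on examples with `O(d r)` true variables. -/
theorem Pool.Agent.Results.MP_1595dd_lc.PTFBarrier.result :
    ∀ (d T : ℕ), 1 ≤ d → ∀ L : List (Finset ℕ × Bool) → Finset ℕ → Bool,
      (∀ h, IsPTF d (2 ^ d) (880000 * d ^ 3 * (T + 1)) (L h)) →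
      ∃ (c : List (ℕ × Bool)) (xs : List (Finset ℕ)), c.length = 16000 * d ^ 2 * (T + 1) ∧
        (∀ x ∈ xs, x.card ≤ 880000 * d ^ 3 * (T + 1)) ∧
        2 ^ T ≤ 120 * d * (T + 1) * (mistakes L (evalDL c false) [] xs + 1) :=
  ptf_barrier
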