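import Pool.Agent.Work.MP_1595dd_lc.Main

open Pool.Agent.Work.MP_1595dd_lc

/-- For every `c`, parities of size `k` are learnable in the infinite attribute model with
polynomially many mistakes and per-trial time `n^(k/c) poly(n, k, l)`. -/
theorem Pool.Agent.Results.MP_1595dd_lc.PolyMistakes.result :
    ∀ c : ℕ, 0 < c → ∃ C : ℕ, ParityLearnable (fun k n => ((n + 2) * (k + 2)) ^ C)
      fun k n l => (n + 2) ^ (k / c) * ((n + 2) * (k + 2) * (l + 2)) ^ C :=
  poly_mistakes
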