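import Pool.Agent.Work.MP_1595dd_lc.Main

open Pool.Agent.Work.MP_1595dd_lc

/-- Parities of size `k` are learnable in the infinite attribute model with `n^O(√k)` mistakes
and per-trial time `n^O(√k) poly(l)`. -/
theorem Pool.Agent.Results.MP_1595dd_lc.SqrtExponent.result :
    ∃ C : ℕ, ParityLearnable (fun k n => (n + 2) ^ (C * (Nat.sqrt k + 1)))
      fun k n l => ((n + 2) ^ (Nat.sqrt k + 1) * (l + 2)) ^ C :=
  sqrt_exponent
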